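import Pool.Agent.Work.MP_2738db_nt_C.Interface

set_option autoImplicit false

/-! Block P3: the sum over the smaller factor (Euler product). -/

namespace Pool.Agent.Work.MP_2738db_nt_C.helper29.P3

open Finset Pool.Agent.Work.MP_2738db_nt_C

/-- the local factor -/
noncomputable def gp (z p : ℕ) : ℝ := (if p ≤ z then (2 / 3 : ℝ) else 1) * ((p : ℝ) / (p - 1)) ^ 2

/-- the multiplicative function -/
noncomputable def F (z u : ℕ) : ℝ := (∏ p ∈ u.primeFactors, gp z p) / u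

theorem gp_nonneg (z p : ℕ) : 0 ≤ gp z p := by
  unfold gp
  split_ifs <;> positivity

theorem F_nonneg (z u : ℕ) : 0 ≤ F z u :=
  div_nonneg (Finset.prod_nonneg fun p _ => gp_nonneg z p) (Nat.cast_nonneg u)

theorem F_one (z : ℕ) : F z 1 = 1 := by simp [F]

theorem F_mul (z : ℕ) {m n : ℕ} (h : Nat.Coprime m n) : F z (m * n) = F z m * F z n := by
  unfold F
  rw [h.primeFactors_mul, Finset.prod_union h.disjoint_primeFactors, Nat.cast_mul, div_mul_div_comm]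

theorem om_eq (z u : ℕ) (hu : u ≠ 0) : om z u = (u.primeFactors.filter (fun p => p ≤ z)).card := by
  unfold om
  congr 1
  ext p
  simp only [Finset.mem_filter, Finset.mem_Icc, Nat.mem_primeFactors]
  constructor
  · rintro ⟨⟨-, h2⟩, h3, h4⟩
    exact ⟨⟨h3, h4, hu⟩, h2⟩
  · rintro ⟨⟨h3, h4, -⟩, h2⟩
    exact ⟨⟨h3.one_lt.le, h2⟩, h3, h4⟩

theorem div_totient (u : ℕ) (hu : u ≠ 0) :
    (u : ℝ) / u.totient = ∏ p ∈ u.primeFactors, (p : ℝ) / (p - 1) := by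
  have h1 : (u.totient : ℝ) = u * ∏ p ∈ u.primeFactors, (1 - (p : ℝ)⁻¹) := by
    have h := Nat.totient_eq_mul_prod_factors u
    have h2 := congrArg (fun x : ℚ => (x : ℝ)) h
    push_cast at h2
    exact h2
  have hu' : (u : ℝ) ≠ 0 := by exact_mod_cast hu
  have h2 : (∏ p ∈ u.primeFactors, (p : ℝ) / (p - 1)) * ∏ p ∈ u.primeFactors, (1 - (p : ℝ)⁻¹) = 1 := by
    rw [← Finset.prod_mul_distrib]
    refine Finset.prod_eq_one fun p hp => ?_
    have hp2 : (2 : ℝ) ≤ p := by exact_mod_cast (Nat.prime_of_mem_primeFactors hp).two_le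
    have h3 : (p : ℝ) ≠ 0 := by linarith
    have h4 : (p : ℝ) - 1 ≠ 0 := by linarith
    field_simp
  have h5 : ∏ p ∈ u.primeFactors, (1 - (p : ℝ)⁻¹) ≠ 0 := right_ne_zero_of_mul_eq_one h2
  rw [h1, div_eq_iff (mul_ne_zero hu' h5)]
  rw [← mul_assoc, mul_comm _ (u : ℝ), mul_assoc, h2, mul_one]

theorem F_eq (z u : ℕ) (hu : u ≠ 0) :
    (2 / 3 : ℝ) ^ om z u * ((u : ℝ) / u.totient) ^ 2 / u = F z u := by
  unfold F gp
  rw [om_eq z u hu, div_totient u hu, Finset.prod_mul_distrib, Finset.prod_pow]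
  congr 2
  rw [Finset.prod_ite, Finset.prod_const, Finset.prod_const_one, mul_one]

theorem F_prime_pow (z p n : ℕ) (hp : p.Prime) :
    F z (p ^ n) = gp z p * ((p : ℝ)⁻¹) ^ n + (if n = 0 then 1 - gp z p else 0) := by
  rcases Nat.eq_zero_or_pos n with h | h
  · subst h
    rw [pow_zero, pow_zero, F_one, if_pos rfl]; ring
  · rw [if_neg h.ne', add_zero]
    unfold F
    rw [Nat.primeFactors_prime_pow h.ne' hp, Finset.prod_singleton, Nat.cast_pow, inv_pow,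
      div_eq_mul_inv]

theorem hasSum_F (z p : ℕ) (hp : p.Prime) :
    HasSum (fun n : ℕ => F z (p ^ n)) (1 + gp z p / (p - 1)) := by
  have hp2 : (2 : ℝ) ≤ p := by exact_mod_cast hp.two_le
  have h1 : HasSum (fun n : ℕ => ((p : ℝ)⁻¹) ^ n) (1 - (p : ℝ)⁻¹)⁻¹ :=
    hasSum_geometric_of_lt_one (by positivity) (inv_lt_one_of_one_lt₀ (by linarith))
  have h2 := h1.mul_left (gp z p)
  have h3 : HasSum (fun n : ℕ => if n = 0 then 1 - gp z p else 0) (1 - gp z p) :=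
    hasSum_ite_eq 0 (1 - gp z p)
  have h4 := h2.add h3
  have h5 : gp z p * (1 - (p : ℝ)⁻¹)⁻¹ + (1 - gp z p) = 1 + gp z p / (p - 1) := by
    have h6 : (p : ℝ) ≠ 0 := by linarith
    have h7 : (p : ℝ) - 1 ≠ 0 := by linarith
    have h8 : (1 - (p : ℝ)⁻¹)⁻¹ = p / (p - 1) := by
      field_simp
    rw [h8]
    field_simp
    ring
  rw [← h5]
  refine h4.congr_fun ?_
  intro n
  rw [F_prime_pow z p n hp]

theorem summable_F (z p : ℕ) (hp : p.Prime) : Summable (fun n : ℕ => ‖F z (p ^ n)‖) := by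
  have h := (hasSum_F z p hp).summable
  have h1 : (fun n : ℕ => ‖F z (p ^ n)‖) = fun n : ℕ => F z (p ^ n) := by
    funext n
    rw [Real.norm_of_nonneg (F_nonneg z _)]
  rw [h1]
  exact h

theorem hasSum_prod (z : ℕ) (s : Finset ℕ) :
    HasSum (fun m : Nat.factoredNumbers s => F z m)
      (∏ p ∈ s.filter Nat.Prime, ∑' n : ℕ, F z (p ^ n)) :=
  (EulerProduct.summable_and_hasSum_factoredNumbers_prod_filter_prime_tsum
    (f := F z) (F_one z) (F_mul z) (fun {p} hp => summable_F z p hp) s).2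

theorem mem_factored (Y u : ℕ) (hu : u ∈ Icc 1 Y) : u ∈ Nat.factoredNumbers (Icc 1 Y) := by
  rw [Nat.mem_factoredNumbers_iff_primeFactors_subset]
  have hu' := Finset.mem_Icc.mp hu
  refine ⟨by omega, fun p hp => Finset.mem_Icc.mpr
    ⟨(Nat.prime_of_mem_primeFactors hp).one_lt.le, ?_⟩⟩
  exact (Nat.le_of_dvd (by omega) (Nat.dvd_of_mem_primeFactors hp)).trans hu'.2

theorem sum_le_of_hasSum_sub (f : ℕ → ℝ) (hf : ∀ n, 0 ≤ f n) (S : Set ℕ) (T : Finset ℕ)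
    (hT : ∀ u ∈ T, u ∈ S) (A : ℝ) (h : HasSum (fun m : S => f m) A) : ∑ u ∈ T, f u ≤ A := by
  have h2 : HasSum (S.indicator f) A := hasSum_subtype_iff_indicator.mp h
  have h3 : ∑ u ∈ T, f u = ∑ u ∈ T, S.indicator f u := by
    refine Finset.sum_congr rfl fun u hu => ?_
    rw [Set.indicator_of_mem (hT u hu)]
  rw [h3]
  exact sum_le_hasSum _ (fun u _ => Set.indicator_nonneg (fun u _ => hf u) u) h2

theorem prod_eq (z : ℕ) (s : Finset ℕ) : ∏ p ∈ s.filter Nat.Prime, ∑' n : ℕ, F z (p ^ n) =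
      ∏ p ∈ s.filter Nat.Prime, (1 + gp z p / (p - 1)) :=
  Finset.prod_congr rfl fun p hp => (hasSum_F z p (Finset.mem_filter.mp hp).2).tsum_eq

theorem sum_F_le (z Y : ℕ) : ∑ u ∈ Icc 1 Y, F z u ≤
    ∏ p ∈ (Icc 1 Y).filter Nat.Prime, (1 + gp z p / (p - 1)) := by
  rw [← prod_eq]
  exact sum_le_of_hasSum_sub (F z) (F_nonneg z) _ (Icc 1 Y) (mem_factored Y) _
    (hasSum_prod z (Icc 1 Y))

/-- the local factors in terms of `1 / p` -/
theorem gp_le (z p : ℕ) (hp : 2 ≤ p) :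
    gp z p / (p - 1) ≤ (if p ≤ z then (2 / 3 : ℝ) else 1) * (1 / p) + 24 * (1 / (p : ℝ) ^ 2) := by
  have hp2 : (2 : ℝ) ≤ p := by exact_mod_cast hp
  unfold gp
  set c : ℝ := if p ≤ z then (2 / 3 : ℝ) else 1 with hc
  have hc0 : 0 ≤ c := by rw [hc]; split_ifs <;> norm_num
  have hc1 : c ≤ 1 := by rw [hc]; split_ifs <;> norm_num
  set x : ℝ := (p : ℝ) with hx
  have hx1 : 0 < x - 1 := by linarith
  have hx0 : 0 < x := by linarith
  have key : (x / (x - 1)) ^ 2 / (x - 1) ≤ 1 / x + 24 * (1 / x ^ 2) := by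
    rw [div_pow, div_div, div_add' _ _ _ hx0.ne', div_le_div_iff₀ (by positivity) (by positivity)]
    have : (x - 1) ^ 2 * (x - 1) * (24 * (1 / x ^ 2) * x) = 24 * (x - 1) ^ 3 / x := by
      field_simp
    have h24 : (1 + 24 * (1 / x ^ 2) * x) * ((x - 1) ^ 2 * (x - 1)) =
        (x - 1) ^ 3 + 24 * (x - 1) ^ 3 / x := by
      field_simp
    rw [h24]
    have h3 : 24 * (x - 1) ^ 3 / x ≥ 3 * x ^ 2 := by
      rw [ge_iff_le, le_div_iff₀ hx0]
      have h5 : x / 2 ≤ x - 1 := by linarith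
      have h6 : (x / 2) ^ 3 ≤ (x - 1) ^ 3 := pow_le_pow_left₀ (by positivity) h5 3
      nlinarith [h6]
    nlinarith [h3]
  calc c * (x / (x - 1)) ^ 2 / (x - 1) = c * ((x / (x - 1)) ^ 2 / (x - 1)) := by ring
    _ ≤ c * (1 / x + 24 * (1 / x ^ 2)) := mul_le_mul_of_nonneg_left key hc0
    _ ≤ c * (1 / x) + 24 * (1 / x ^ 2) := by
        have : 0 ≤ 24 * (1 / x ^ 2) := by positivity
        nlinarith

theorem sum_sq (Y : ℕ) : ∑ p ∈ (Icc 1 Y).filter Nat.Prime, 1 / (p : ℝ) ^ 2 ≤ 2 := by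
  have h1 : ∑ p ∈ (Icc 1 Y).filter Nat.Prime, 1 / (p : ℝ) ^ 2 ≤ ∑ p ∈ Icc 1 Y, 1 / (p : ℝ) ^ 2 :=
    Finset.sum_le_sum_of_subset_of_nonneg (Finset.filter_subset _ _) fun p _ _ => by positivity
  refine h1.trans ?_
  rcases Nat.eq_zero_or_pos Y with h | h
  · subst h; norm_num
  have h2 : ∑ p ∈ Icc 1 Y, 1 / (p : ℝ) ^ 2 ≤ 2 - 1 / (Y : ℝ) := by
    induction Y, h using Nat.le_induction with
    | base => norm_num
    | succ n hn ih =>
      rw [Finset.sum_Icc_succ_top (by omega)]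
      have ih' := ih (Finset.sum_le_sum_of_subset_of_nonneg (Finset.filter_subset _ _)
        fun p _ _ => by positivity)
      have hn1 : (1 : ℝ) ≤ n := by exact_mod_cast hn
      have h3 : 1 / ((n : ℝ) + 1) ^ 2 ≤ 1 / (n : ℝ) - 1 / ((n : ℝ) + 1) := by
        have h4 : 1 / (n : ℝ) - 1 / ((n : ℝ) + 1) = 1 / ((n : ℝ) * (n + 1)) := by
          field_simp
          ring
        rw [h4]
        refine one_div_le_one_div_of_le (by positivity) ?_
        nlinarith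
      push_cast
      linarith
  have h4 : (0 : ℝ) ≤ 1 / (Y : ℝ) := by positivity
  linarith

end Pool.Agent.Work.MP_2738db_nt_C.helper29.P3

namespace Pool.Agent.Work.MP_2738db_nt_C.helper29

open Finset Pool.Agent.Work.MP_2738db_nt_C

theorem p3 : Stmt_Mer → Stmt_P3 := by
  rintro ⟨C₀, hC₀, hMer⟩
  refine ⟨Real.exp (2 * C₀ + 48), Real.one_le_exp (by linarith), fun Y z hz hzY => ?_⟩
  have hz2 : (2 : ℝ) ≤ z := by exact_mod_cast hz
  have hY2 : (2 : ℝ) ≤ Y := hz2.trans (by exact_mod_cast hzY)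
  have hlz : 0 < Real.log z := Real.log_pos (by linarith)
  have hlY : 0 < Real.log Y := Real.log_pos (by linarith)
  have h1 : ∑ u ∈ Icc 1 Y, (2 / 3 : ℝ) ^ om z u * ((u : ℝ) / u.totient) ^ 2 / u =
      ∑ u ∈ Icc 1 Y, P3.F z u :=
    Finset.sum_congr rfl fun u hu => P3.F_eq z u (by have := (Finset.mem_Icc.mp hu).1; omega)
  rw [h1]
  refine (P3.sum_F_le z Y).trans ?_
  have h2 : ∏ p ∈ (Icc 1 Y).filter Nat.Prime, (1 + P3.gp z p / ((p : ℝ) - 1)) ≤
      Real.exp (∑ p ∈ (Icc 1 Y).filter Nat.Prime, P3.gp z p / ((p : ℝ) - 1)) := by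
    rw [Real.exp_sum]
    refine Finset.prod_le_prod (fun p hp => ?_) fun p _ => ?_
    · have hp2 : (2 : ℝ) ≤ p := by exact_mod_cast (Finset.mem_filter.mp hp).2.two_le
      have := div_nonneg (P3.gp_nonneg z p) (by linarith : (0 : ℝ) ≤ (p : ℝ) - 1)
      linarith
    · have := Real.add_one_le_exp (P3.gp z p / ((p : ℝ) - 1))
      linarith
  refine h2.trans ?_
  have h3 : ∑ p ∈ (Icc 1 Y).filter Nat.Prime, P3.gp z p / ((p : ℝ) - 1) ≤
      ∑ p ∈ (Icc 1 Y).filter Nat.Prime,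
        ((1 : ℝ) / p - (1 / 3 : ℝ) * (if p ≤ z then (1 : ℝ) / p else 0) + 24 * (1 / (p : ℝ) ^ 2)) := by
    refine Finset.sum_le_sum fun p hp => ?_
    have := P3.gp_le z p (Finset.mem_filter.mp hp).2.two_le
    refine this.trans (le_of_eq ?_)
    split_ifs <;> ring
  have h4 : ∑ p ∈ (Icc 1 Y).filter Nat.Prime,
        ((1 : ℝ) / p - (1 / 3 : ℝ) * (if p ≤ z then (1 : ℝ) / p else 0) + 24 * (1 / (p : ℝ) ^ 2)) =
      ∑ p ∈ (Icc 1 Y).filter Nat.Prime, (1 : ℝ) / p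
        - (1 / 3 : ℝ) * ∑ p ∈ (Icc 1 z).filter Nat.Prime, (1 : ℝ) / p
        + 24 * ∑ p ∈ (Icc 1 Y).filter Nat.Prime, 1 / (p : ℝ) ^ 2 := by
    rw [Finset.sum_add_distrib, Finset.sum_sub_distrib, ← Finset.mul_sum, ← Finset.mul_sum]
    congr 3
    rw [← Finset.sum_filter, Finset.filter_filter]
    congr 1
    ext p
    simp only [Finset.mem_filter, Finset.mem_Icc]
    constructor
    · rintro ⟨⟨a, b⟩, c, d⟩; exact ⟨⟨a, d⟩, c⟩
    · rintro ⟨⟨a, b⟩, c⟩; exact ⟨⟨a, b.trans hzY⟩, c, b⟩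
  have h5 := (abs_le.mp (hMer Y (hz.trans hzY))).2
  have h6 := (abs_le.mp (hMer z hz)).1
  have h7 := P3.sum_sq Y
  have h8 : Real.log Y / Real.log z ^ (1 / 3 : ℝ) =
      Real.exp (Real.log (Real.log Y) - Real.log (Real.log z) * (1 / 3)) := by
    rw [Real.exp_sub, Real.exp_log hlY, Real.rpow_def_of_pos hlz]
  rw [mul_div_assoc, h8, ← Real.exp_add]
  refine Real.exp_le_exp.mpr (h3.trans ?_)
  rw [h4]
  linarith

end Pool.Agent.Work.MP_2738db_nt_C.helper29
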