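import Pool.Agent.Work.MP_2738db_nt_C.Interface

set_option autoImplicit false

/-! Block P4: few integers have many small prime factors (Rankin). -/

namespace Pool.Agent.Work.MP_2738db_nt_C.helper29

open Finset Pool.Agent.Work.MP_2738db_nt_C

/-- the primes up to `z` -/
def PZ (z : ℕ) : Finset ℕ := (Icc 1 z).filter Nat.Prime

theorem om_eq (z n : ℕ) : om z n = ((PZ z).filter (fun p => p ∣ n)).card := by
  unfold om PZ
  rw [Finset.filter_filter]

theorem pow_om (z c : ℕ) : (4 / 3 : ℝ) ^ om z c =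
    ∑ T ∈ (PZ z).powerset, if (∏ p ∈ T, p) ∣ c then (1 / 3 : ℝ) ^ T.card else 0 := by
  rw [om_eq, ← Finset.sum_filter]
  have h := Finset.sum_pow_mul_eq_add_pow (1 / 3 : ℝ) 1 ((PZ z).filter (fun p => p ∣ c))
  have h2 : (1 / 3 : ℝ) + 1 = 4 / 3 := by norm_num
  rw [h2] at h
  rw [← h]
  have h3 : ((PZ z).filter (fun p => p ∣ c)).powerset =
      (PZ z).powerset.filter (fun T => (∏ p ∈ T, p) ∣ c) := by
    ext T
    simp only [Finset.mem_powerset, Finset.mem_filter]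
    constructor
    · intro hT
      refine ⟨fun p hp => (Finset.mem_filter.mp (hT hp)).1, ?_⟩
      refine Finset.prod_primes_dvd c (fun p hp => ?_) (fun p hp => (Finset.mem_filter.mp (hT hp)).2)
      have := (Finset.mem_filter.mp (Finset.mem_filter.mp (hT hp)).1).2
      exact this.prime
    · rintro ⟨hT, hd⟩ p hp
      exact Finset.mem_filter.mpr ⟨hT hp, (Finset.dvd_prod_of_mem (fun p => p) hp).trans hd⟩
  rw [h3]
  refine Finset.sum_congr rfl fun T _ => ?_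
  rw [one_pow, mul_one]

theorem sum_pow_om (z N : ℕ) : ∑ c ∈ Icc 1 N, (4 / 3 : ℝ) ^ om z c ≤
    N * ∏ p ∈ PZ z, (1 + 1 / (3 * (p : ℝ))) := by
  simp only [pow_om]
  rw [Finset.sum_comm, Finset.prod_one_add, Finset.mul_sum]
  refine Finset.sum_le_sum fun T hT => ?_
  rw [← Finset.sum_filter, Finset.sum_const, nsmul_eq_mul]
  have h1 : ((Icc 1 N).filter (fun c => (∏ p ∈ T, p) ∣ c)).card = N / ∏ p ∈ T, p := by
    rw [← Nat.Ioc_filter_dvd_card_eq_div]
    congr 1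
  have h2 : ∏ p ∈ T, 1 / (3 * (p : ℝ)) = (1 / 3 : ℝ) ^ T.card * (1 / ((∏ p ∈ T, p : ℕ) : ℝ)) := by
    rw [Nat.cast_prod, one_div ((∏ p ∈ T, (p : ℝ))), ← Finset.prod_inv_distrib, ← Finset.prod_const,
      ← Finset.prod_mul_distrib]
    refine Finset.prod_congr rfl fun p _ => ?_
    rw [one_div, one_div, mul_inv]
  rw [h1, h2]
  have h3 : ((N / ∏ p ∈ T, p : ℕ) : ℝ) ≤ N * (1 / ((∏ p ∈ T, p : ℕ) : ℝ)) := by
    rw [mul_one_div]
    exact Nat.cast_div_le
  calc ((N / ∏ p ∈ T, p : ℕ) : ℝ) * (1 / 3 : ℝ) ^ T.card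
      ≤ N * (1 / ((∏ p ∈ T, p : ℕ) : ℝ)) * (1 / 3 : ℝ) ^ T.card :=
        mul_le_mul_of_nonneg_right h3 (by positivity)
    _ = N * ((1 / 3 : ℝ) ^ T.card * (1 / ((∏ p ∈ T, p : ℕ) : ℝ))) := by ring

theorem log_four_thirds : (23 / 80 : ℝ) < Real.log (4 / 3) := by
  rw [Real.lt_log_iff_exp_lt (by norm_num)]
  have h := Real.exp_bound' (x := 23 / 80) (by norm_num) (by norm_num) (n := 4) (by norm_num)
  refine h.trans_lt ?_
  norm_num [Finset.sum_range_succ, Nat.factorial]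

theorem p4 : Stmt_Mer → Stmt_P4 := by
  rintro ⟨C₀, hC₀, hMer⟩
  refine ⟨Real.exp (C₀ / 3), Real.one_le_exp (by linarith), fun N z hN hz hzN => ?_⟩
  set L := Real.log (Real.log N) with hL
  have hN3 : (3 : ℝ) ≤ N := by exact_mod_cast hN
  have hlogN : 1 ≤ Real.log N := by
    rw [Real.le_log_iff_exp_le (by linarith)]
    have := Real.exp_one_lt_d9
    linarith
  have hL0 : 0 ≤ L := Real.log_nonneg hlogN
  -- the product
  have hprod : ∏ p ∈ PZ z, (1 + 1 / (3 * (p : ℝ))) ≤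
      Real.exp (C₀ / 3) * Real.log N ^ (1 / 3 : ℝ) := by
    have h1 : ∏ p ∈ PZ z, (1 + 1 / (3 * (p : ℝ))) ≤
        Real.exp (∑ p ∈ PZ z, 1 / (3 * (p : ℝ))) := by
      rw [Real.exp_sum]
      refine Finset.prod_le_prod (fun p _ => by positivity) fun p _ => ?_
      have := Real.add_one_le_exp (1 / (3 * (p : ℝ)))
      linarith
    have h2 : ∑ p ∈ PZ z, 1 / (3 * (p : ℝ)) = (∑ p ∈ PZ z, (1 : ℝ) / p) / 3 := by
      rw [Finset.sum_div]
      refine Finset.sum_congr rfl fun p _ => ?_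
      rw [div_div]; ring
    have h3 := (abs_le.mp (hMer z hz)).2
    have hz2 : (2 : ℝ) ≤ z := by exact_mod_cast hz
    have hlz : 0 < Real.log z := Real.log_pos (by linarith)
    have hzN' : Real.log z ≤ Real.log N :=
      Real.log_le_log (by linarith) (by exact_mod_cast hzN)
    have h4 : Real.log (Real.log z) ≤ L := Real.log_le_log hlz hzN'
    have h5 : (∑ p ∈ PZ z, (1 : ℝ) / p) / 3 ≤ C₀ / 3 + L * (1 / 3) := by
      have : ∑ p ∈ PZ z, (1 : ℝ) / p ≤ C₀ + L := by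
        unfold PZ
        linarith
      linarith
    have h6 : Real.log N ^ (1 / 3 : ℝ) = Real.exp (L * (1 / 3)) := by
      rw [Real.rpow_def_of_pos (by linarith)]
    rw [h6, ← Real.exp_add]
    refine h1.trans (Real.exp_le_exp.mpr ?_)
    rw [h2]; exact h5
  -- the set
  have hset : {c : ℕ | 1 ≤ c ∧ c ≤ N ∧ 4 / 3 * Real.log (Real.log N) < (om z c : ℝ)} =
      ((Icc 1 N).filter (fun c => 4 / 3 * L < (om z c : ℝ)) : Finset ℕ) := by
    ext c
    simp only [Set.mem_ofPred_eq, Finset.coe_filter, Finset.mem_Icc, and_assoc, hL]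
  rw [hset, Set.ncard_coe_finset]
  set F := (Icc 1 N).filter (fun c => 4 / 3 * L < (om z c : ℝ)) with hF
  have hlow : (F.card : ℝ) * Real.log N ^ (1 / 3 + 1 / 20 : ℝ) ≤
      ∑ c ∈ Icc 1 N, (4 / 3 : ℝ) ^ om z c := by
    have h1 : ∑ c ∈ F, (4 / 3 : ℝ) ^ om z c ≤ ∑ c ∈ Icc 1 N, (4 / 3 : ℝ) ^ om z c :=
      Finset.sum_le_sum_of_subset_of_nonneg (Finset.filter_subset _ _)
        fun c _ _ => by positivity
    refine le_trans ?_ h1
    rw [← nsmul_eq_mul, ← Finset.sum_const]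
    refine Finset.sum_le_sum fun c hc => ?_
    have hc2 : 4 / 3 * L < (om z c : ℝ) := (Finset.mem_filter.mp hc).2
    rw [← Real.rpow_natCast, Real.rpow_def_of_pos (by norm_num : (0 : ℝ) < 4 / 3),
      Real.rpow_def_of_pos (by linarith : 0 < Real.log N)]
    refine Real.exp_le_exp.mpr ?_
    have h2 := log_four_thirds
    have h3 : 0 < Real.log (4 / 3) := by linarith
    calc Real.log (Real.log N) * (1 / 3 + 1 / 20 : ℝ) = L * (23 / 60) := by rw [← hL]; ring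
      _ = (23 / 80) * (4 / 3 * L) := by ring
      _ ≤ Real.log (4 / 3) * (4 / 3 * L) :=
          mul_le_mul_of_nonneg_right h2.le (by positivity)
      _ ≤ Real.log (4 / 3) * (om z c : ℝ) := mul_le_mul_of_nonneg_left hc2.le h3.le
  have hall : (F.card : ℝ) * Real.log N ^ (1 / 3 + 1 / 20 : ℝ) ≤
      N * (Real.exp (C₀ / 3) * Real.log N ^ (1 / 3 : ℝ)) :=
    hlow.trans ((sum_pow_om z N).trans (mul_le_mul_of_nonneg_left hprod (by positivity)))
  rw [Real.rpow_add (by linarith : 0 < Real.log N)] at hall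
  have hp1 : 0 < Real.log N ^ (1 / 3 : ℝ) := Real.rpow_pos_of_pos (by linarith) _
  have hp2 : 0 < Real.log N ^ (1 / 20 : ℝ) := Real.rpow_pos_of_pos (by linarith) _
  rw [le_div_iff₀ hp2]
  have h7 : (F.card : ℝ) * Real.log N ^ (1 / 20 : ℝ) * Real.log N ^ (1 / 3 : ℝ) ≤
      Real.exp (C₀ / 3) * N * Real.log N ^ (1 / 3 : ℝ) := by
    calc (F.card : ℝ) * Real.log N ^ (1 / 20 : ℝ) * Real.log N ^ (1 / 3 : ℝ)
        = (F.card : ℝ) * (Real.log N ^ (1 / 3 : ℝ) * Real.log N ^ (1 / 20 : ℝ)) := by ring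
      _ ≤ N * (Real.exp (C₀ / 3) * Real.log N ^ (1 / 3 : ℝ)) := hall
      _ = Real.exp (C₀ / 3) * N * Real.log N ^ (1 / 3 : ℝ) := by ring
  exact le_of_mul_le_mul_right h7 hp1

end Pool.Agent.Work.MP_2738db_nt_C.helper29
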